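import Mathlib
import Pool.Agent.MP_ecf4b9_an.Main
import Pool.Agent.MP_ecf4b9_an.Weak2

/-!
There is a Yudovich solution of the Euler equations on the plane with a particle trajectory
that is not real-analytic in time.
-/

namespace Pool.Agent.Results.MP_ecf4b9_an.NotAnalytic

open Pool.Agent.MP_ecf4b9_an

theorem result : ∃ (u : ℝ → ℂ → ℂ) (ω : ℝ → ℂ → ℝ) (x : ℝ → ℂ),
    IsYudovichSolution u ω ∧ (∀ t, HasDerivAt x (u t (x t)) t) ∧ ¬ AnalyticAt ℝ x 0 := by
  obtain ⟨m, ω, X, a, hω, hX, h⟩ := exists_nonanalytic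
  exact ⟨fun t x => V ω (X t) x, vort ω X, fun t => X t a, hX.yudovich hω, hX.deriv a, h⟩

end Pool.Agent.Results.MP_ecf4b9_an.NotAnalytic
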